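import Pool.Agent.Work.MP_3e1351_al.Ct3.Main

open Pool.Agent.Work.MP_3e1351_al

/-- The isometry group of a metric space `X` acts continuously by affine isometries on a Banach
space of cotype two that contains an equivariant coarse copy of `X`. For the rational Urysohn space
all orbits are unbounded. -/
theorem Pool.Agent.Results.MP_3e1351_al.CotypeTwo.result (X : Type) [MetricSpace X] [Nonempty X] :
    ∃ (E : Type) (_ : NormedAddCommGroup E) (_ : NormedSpace ℝ E) (_ : CompleteSpace E)
      (α : (X ≃ᵢ X) →* (E ≃ᵃⁱ[ℝ] E)) (ι : X → E),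
      HasCotype 2 E ∧ IsContinuousAction α ∧ IsCoarseEmbedding ι ∧ (∀ g x, α g (ι x) = ι (g x)) ∧
      (IsRationalUrysohn X → ∀ (v : E) (R : ℝ), ∃ g, R < dist (α g v) v) :=
  Ct3.main X
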