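import Pool.Agent.Work.MP_3e1351_al.Conv

open Pool.Agent.Work.MP_3e1351_al

/-- Let `X` be the rational Urysohn space and `E` a real Banach space. Every continuous affine
isometric action of `Isom X` on a Banach space that embeds isomorphically in `E` has a fixed point
if and only if the space of summable sequences does not embed isomorphically in `E`. -/
theorem Pool.Agent.Results.MP_3e1351_al.EllOneDichotomy.result (X : Type) [MetricSpace X]
    (hX : IsRationalUrysohn X) (E : Type) [NormedAddCommGroup E] [NormedSpace ℝ E]
    [CompleteSpace E] :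
    (∀ (F : Type) [NormedAddCommGroup F] [NormedSpace ℝ F] [CompleteSpace F], Embeds F E →
      ∀ α : (X ≃ᵢ X) →* (F ≃ᵃⁱ[ℝ] F), IsContinuousAction α → ∃ v, ∀ g, α g v = v) ↔
    ¬ Embeds (lp (fun _ : ℕ => ℝ) 1) E :=
  main hX E
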