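import Pool.Agent.Work.MP_3e1351_al.Ct2.Sharp

open Pool.Agent.Work.MP_3e1351_al

/-- Let `X` be the rational Urysohn space, `q ≥ 2` and `θ > 0`. The isometry group of `X` acts
continuously by affine isometries, with unbounded orbits, on a Banach space of cotype `q` that
contains an equivariant copy of the snowflake of exponent `θ` if and only if `θ ≤ 1 - 2 / q`, and
the same condition is necessary without any action. -/
theorem Pool.Agent.Results.MP_3e1351_al.SharpCotype.result (X : Type) [MetricSpace X]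
    (hX : IsRationalUrysohn X) (q θ : ℝ) (hq : 2 ≤ q) (hθ : 0 < θ) :
    [θ ≤ 1 - 2 / q,
      ∃ (E : Type) (_ : NormedAddCommGroup E) (_ : NormedSpace ℝ E) (_ : CompleteSpace E)
        (α : (X ≃ᵢ X) →* (E ≃ᵃⁱ[ℝ] E)) (ι : X → E),
        HasCotype q E ∧ IsContinuousAction α ∧ IsSnowflake θ ι ∧ (∀ g x, α g (ι x) = ι (g x)) ∧
        ∀ (v : E) (R : ℝ), ∃ g, R < dist (α g v) v,
      ∃ (E : Type) (_ : NormedAddCommGroup E) (_ : NormedSpace ℝ E) (_ : CompleteSpace E)
        (ι : X → E), HasCotype q E ∧ IsSnowflake θ ι].TFAE :=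
  Ct2.sharp X hX q θ hq hθ
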